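import Pool.Agent.R41.SpMain

/-!
MP_aba9fe, Q1: every value between the spectator floor and the spectator number (and even every
value between the spectator floor and `n - 1`) is the spectator number of a supergraph.
-/

set_option autoImplicit false

namespace Pool.Agent.Results.MP_aba9fe_co.AllValues

open Pool.Agent.R41.Sp

/-- **For every graph `G` and every `i` with `sf G ≤ i ≤ sp G` there is a supergraph `F` of `G` on
the same vertex set with `sp F = i`.** This even holds for all `i` with `sf G ≤ i ≤ n - 1`. -/
theorem result (V : Type) [Finite V] [Nonempty V] (G : MGraph V) :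
    sf G ≤ G.sp ∧ G.sp ≤ Nat.card V - 1 ∧
    ∀ i : ℕ, sf G ≤ i → i ≤ Nat.card V - 1 → ∃ F : MGraph V, G.IsSupergraph F ∧ F.sp = i := by
  obtain ⟨F, hF, h1, h2⟩ := exists_floor G
  have h3 := usp_pos G
  have h4 : G.sp = Nat.card V - G.usp := rfl
  refine ⟨h2, by omega, fun i hi hi' => ?_⟩
  have h5 : 0 < Nat.card V := Nat.card_pos
  have h6 : F.sp = Nat.card V - F.usp := rfl
  obtain ⟨F', h7, h8⟩ := exists_supergraph (Nat.card V - i) (by omega) _ F le_rfl (by omega)
  refine ⟨F', fun x y => (hF x y).trans (h7 x y), ?_⟩
  have h9 : F'.sp = Nat.card V - F'.usp := rfl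
  omega

end Pool.Agent.Results.MP_aba9fe_co.AllValues
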